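import Mathlib
import Pool.Agent.Run7.h285.V.Stm
import Pool.Agent.Run7.h794.MK.Stm4

/-!
# Project LIO (helper285): random behaviour of the Moebius and Liouville functions at polynomial values, in ALL short windows

`g` is a fixed polynomial of degree `d ≥ 2` with positive leading coefficient, `h` is the Moebius or the Liouville function, `ω(n)` arbitrary
weights bounded by `1`. Average over the pairs `(a, m)`, `|a| ≤ X`, `m₀ < m ≤ m₀ + M`, `M^(d - 1) ≥ X^(1/3) log^B X`, `(m₀ + M)^d ≤ X log^C X`.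
Two hand-ins: `S_LVar` (the variance over windows of every length `1 ≤ H ≤ log^D X`: Good-Churchhouse on average over the constant term, page
MP_0575cc_nt slot 3) and `S_LM` (for almost all pairs square-root cancellation in ALL windows `(m, m + H]` at once, page MP_4f18df_nt slot 2).
Products `∏_l h(f_l(n) + a_l)` (Chowla) are covered by the weights. `L = log X`. The laws `S_LAWg mob`, `S_LAWg lio` are theorems
(`Run7/h794/MK/AllM.lean`, `AllL.lean`: `law_mob`, `law_lio`).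
-/

set_option autoImplicit false

namespace Run7.h285.L

open Finset Filter Topology Polynomial
open Pool.Agent.Run7.h794.MK (mob lio S_LAWg)
open Run7.h285.G (Gd)
open Run7.h285.V (mc)

/-- the function at the absolute value -/
def ev (h : ℕ → ℝ) (y : ℤ) : ℝ := h y.natAbs

/-- **GCL** (from `S_LAWg h`, `|h| ≤ 1`, `Gd g`; model: `Run7/h376/CGS/{A,A2,B,C,D}.lean` and the piece G:CG). Mixed correlations with an ARBITRARY
bounded function `F`. Proof. `D(m) = g(m + j) - g(m + i)` is a polynomial of degree `d - 1` with leading coefficient `d a_d (j - i) ≠ 0`,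
`|j - i| ≤ L^D`. Cut `(m₀, m₀ + M]` into blocks of length `M₁ = ⌊M / L^K⌋`, on which `g(m + i)` changes by at most `X / L^(U + 9)`; with `y = g(m + i) + c` the
sum is `∑_y F(y) h(|y + D(m)|)` over an interval of `y` of length `2 X` which may be taken constant on the block. Positive and negative `y`, `y + D(m)`
separately. Apply `S_LAWg` with `N = ` the size of the values `≤ X L^(C+1)`, uniform probability on the block, `G` = `F` cut to the interval,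
the hypothesis about the exponential sum by the inverse theorem for Weyl sums `Pool.Agent.Run7.h18.MK.iw_unif` exactly as in CG. The `m` below a
constant (where `g` is not monotone, `D(m)` of the wrong sign) are few: `M ≥ X^(1/(3 (d-1)))`. -/
def S_GCL (h : ℕ → ℝ) (g : ℤ[X]) : Prop := ∀ U C D : ℕ, ∃ B X₀ : ℕ, ∀ X : ℕ, X₀ ≤ X → ∀ m₀ M i j : ℕ, i ≠ j →
  (i : ℝ) ≤ Real.log X ^ D → (j : ℝ) ≤ Real.log X ^ D → (X : ℝ) ^ (1 / 3 : ℝ) * Real.log X ^ B ≤ (M : ℝ) ^ (g.natDegree - 1) →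
  ((m₀ : ℝ) + M) ^ g.natDegree ≤ X * Real.log X ^ C → ∀ F : ℤ → ℝ, (∀ y, |F y| ≤ 1) →
  ∑ m ∈ Ioc m₀ (m₀ + M), |mc g F (ev h) X (m + i) (m + j)| ≤ X * M / Real.log X ^ U

/-- **LVar** (from GCL if `|h| ≤ 1`): the second moment is the diagonal. Proof. Expand the square; the terms `n = m + i`, `n' = m + j`, `i ≠ j`, `1 ≤ i, j ≤ H`,
are `ω(n) ω(n') mc g (ev h) (ev h) X n n'`; GCL with `U`, `D` for every pair `(i, j)`. -/
def S_LVar (h : ℕ → ℝ) (g : ℤ[X]) : Prop := ∀ U C D : ℕ, ∃ B X₀ : ℕ, ∀ X : ℕ, X₀ ≤ X → ∀ m₀ M H : ℕ, 1 ≤ H →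
  (H : ℝ) ≤ Real.log X ^ D → (X : ℝ) ^ (1 / 3 : ℝ) * Real.log X ^ B ≤ (M : ℝ) ^ (g.natDegree - 1) →
  ((m₀ : ℝ) + M) ^ g.natDegree ≤ X * Real.log X ^ C → ∀ ω : ℕ → ℝ, (∀ n, |ω n| ≤ 1) →
  |∑ a ∈ Icc (-(X : ℤ)) X, ∑ m ∈ Ioc m₀ (m₀ + M), (∑ n ∈ Ioc m (m + H), ω n * ev h (g.eval (n : ℤ) + a)) ^ 2 -
    ∑ m ∈ Ioc m₀ (m₀ + M), ∑ n ∈ Ioc m (m + H), ω n ^ 2 * ∑ a ∈ Icc (-(X : ℤ)) X, ev h (g.eval (n : ℤ) + a) ^ 2| ≤
    X * M * ((H : ℝ) ^ 2 / Real.log X ^ U)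

/-- **RM** (Rademacher and Menshov, abstract and elementary). `x s n` real, `s` in a finite set. If for every `j ≤ R` and every `i < 2^(R - j)` the
second moment of the sum over the dyadic block `(i 2^j, (i + 1) 2^j]` is at most `A 2^j + Q 4^j`, then the second moment of the maximum of the
partial sums `|∑_{n ≤ H} x s n|`, `H ≤ 2^R`, is at most `(R + 1)² (A 2^R + Q 4^R)`. Proof. `∑_{n ≤ H}` is the sum of at most one dyadic block for each level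
`j ≤ R` (binary expansion of `H`), so its square is at most `(R + 1) ∑_{j ≤ R} (block_j)²`, and the square of the block used at level `j` is
at most the sum of the squares of all blocks of level `j`: `(R + 1) ∑_j 2^(R - j) (A 2^j + Q 4^j)`. -/
def S_RM : Prop := ∀ (α : Type) (S : Finset α) (x : α → ℕ → ℝ) (R : ℕ) (A Q : ℝ), 0 ≤ A → 0 ≤ Q →
  (∀ j i : ℕ, j ≤ R → i < 2 ^ (R - j) → ∑ s ∈ S, (∑ n ∈ Ioc (i * 2 ^ j) ((i + 1) * 2 ^ j), x s n) ^ 2 ≤ A * 2 ^ j + Q * 4 ^ j) →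
  ∀ H : α → ℕ, (∀ s ∈ S, H s ≤ 2 ^ R) →
  ∑ s ∈ S, (∑ n ∈ Ioc 0 (H s), x s n) ^ 2 ≤ ((R : ℝ) + 1) ^ 2 * (A * 2 ^ R + Q * 4 ^ R)

/-- **LM** (from LVar and RM; `|h| ≤ 1`). For almost all `(a, m)`, ALL windows at once. Proof. Let `D' = U = 4 D + 20`, `L^D'` the limit of LVar.
(1) `2^R ≤ L^D'`: LVar gives for every block of `2^j ≤ 2^R` integers at a distance `≤ L^D'` from `m` the second moment
`≤ 3 X M (2^j + 4^j / L^U)`, so by RM the second moment of `max_{H ≤ 2^R} |S_H|` is at most `6 (R + 1)² X M 2^R` and the pairs with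
`max > K' 2^(R/2) (R + 1)²` are at most `6 X M / (K'² (R + 1)²)`; the sum over all `R` is `≤ (ε / 2) X M` for `K'` large. If `2^(R-1) < H ≤ 2^R` this gives
`|S_H| ≤ K √H (1 + log H)²`. (2) `H > L^D' / 2`: for the window length `H₁ = ⌊L^D' / 2⌋` the second moment is `≤ 4 X M H₁`, hence `≤ 16 X M H² / H₁` for every
`H ≥ H₁` (tiling, `MG_long` of `Run7/h285/S/SYSMa.lean`); scales `H_j = ⌈(1 + 1 / L^(D + 2))^j H₁⌉`, at most `L^(D + 4)` of them; Chebyshev with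
`|S_{H_j}| ≤ H_j / (4 L^D)`; between two scales `|S_H - S_{H_j}| ≤ H_{j+1} - H_j`. -/
def S_LM (h : ℕ → ℝ) (g : ℤ[X]) : Prop := ∀ ε : ℝ, 0 < ε → ∃ K : ℝ, 0 < K ∧ ∀ C D : ℕ, ∃ B X₀ : ℕ, ∀ X : ℕ, X₀ ≤ X → ∀ m₀ M : ℕ,
  (X : ℝ) ^ (1 / 3 : ℝ) * Real.log X ^ B ≤ (M : ℝ) ^ (g.natDegree - 1) →
  ((m₀ : ℝ) + M) ^ g.natDegree ≤ X * Real.log X ^ C → ∀ ω : ℕ → ℝ, (∀ n, |ω n| ≤ 1) →
  ∃ Bad ⊆ Icc (-(X : ℤ)) X ×ˢ Ioc m₀ (m₀ + M), (#Bad : ℝ) ≤ ε * (X * M) ∧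
    ∀ a ∈ Icc (-(X : ℤ)) X, ∀ m ∈ Ioc m₀ (m₀ + M), (a, m) ∉ Bad → ∀ H : ℕ, 1 ≤ H → (H : ℝ) ^ g.natDegree ≤ X * Real.log X ^ C →
      |∑ n ∈ Ioc m (m + H), ω n * ev h (g.eval (n : ℤ) + a)| ≤ K * √H * (1 + Real.log H) ^ 2 + H / Real.log X ^ D

/-- **SQF** (squarefree numbers, elementary): `∑_{|c| ≤ X} μ²(|v + c|) = (12 / π²) X + o(X)` for `|v| ≤ X L^C`. Proof. `μ²(n) = ∑_{d² | n} μ(d)`; the number
of the multiples of `d²` in an interval of length `2 X + 1` is `(2 X + 1) / d² + O(1)`, `d ≤ √(2 X L^C)`; the sum of `μ(d) / d²` is `6 / π²`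
(Mathlib: `LSeries` of the Moebius function at `2`, `riemannZeta_two`); the tree has it too (search `Squarefree`, `6 / Real.pi ^ 2`). -/
def S_SQF : Prop := ∀ (ε : ℝ) (C : ℕ), 0 < ε → ∃ X₀ : ℕ, ∀ X : ℕ, X₀ ≤ X → ∀ v : ℤ, (v.natAbs : ℝ) ≤ X * Real.log X ^ C →
  |∑ c ∈ Icc (-(X : ℤ)) X, ev mob (v + c) ^ 2 - 12 / Real.pi ^ 2 * X| ≤ ε * X

end Run7.h285.L
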