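import Pool.Agent.Run7.h285.L.Kf
import Pool.Agent.Run7.h216.L.GCL
import Pool.Agent.Run7.h216.L.LVar
import Pool.Agent.Run7.h216.L.RM
import Pool.Agent.Run7.h811.L.LM
import Pool.Agent.Run7.h794.MK.AllM
import Pool.Agent.Run7.h794.MK.AllL

/-!
# Project LIO: the theorems without hypotheses
-/

set_option autoImplicit false

namespace Run7.h285.L

open Finset Filter Topology Polynomial
open Pool.Agent.Run7.h794.MK (mob lio mob_abs lio_abs law_mob law_lio S_LAWg)
open Run7.h285.G (Gd)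
open Run7.h285.S (Bx)

theorem lvar_mob {g : ℤ[X]} (hg : Gd g) : S_LVar mob g :=
  Pool.Agent.Run7.h216.L.lvar mob g mob_abs (Pool.Agent.Run7.h216.L.gcl mob mob_abs law_mob hg)

theorem lvar_lio {g : ℤ[X]} (hg : Gd g) : S_LVar lio g :=
  Pool.Agent.Run7.h216.L.lvar lio g lio_abs (Pool.Agent.Run7.h216.L.gcl lio lio_abs law_lio hg)

theorem lm_mob {g : ℤ[X]} (hg : Gd g) : S_LM mob g := Run7.h811.L.lm mob_abs hg (lvar_mob hg) Pool.Agent.Run7.h216.L.rm

theorem lm_lio {g : ℤ[X]} (hg : Gd g) : S_LM lio g := Run7.h811.L.lm lio_abs hg (lvar_lio hg) Pool.Agent.Run7.h216.L.rm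

/-- the diagonal for the Liouville function -/
theorem dg_lio : S_DG lio 2 := by
  intro ε C hε
  obtain ⟨X₀, hX₀⟩ := exists_nat_ge (1 / ε)
  refine ⟨X₀, fun X hX v _ => ?_⟩
  have h1 : ∀ n : ℕ, lio n ^ 2 = if n = 0 then 0 else 1 := by
    intro n
    unfold lio
    split_ifs
    · norm_num
    · rw [← pow_mul, mul_comm, pow_mul]; norm_num
  have h2 : ∑ c ∈ Icc (-(X : ℤ)) X, ev lio (v + c) ^ 2 = (#(Icc (-(X : ℤ)) X) : ℝ) - #((Icc (-(X : ℤ)) X).filter (fun c => c = -v)) := by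
    have h3 : ∀ c : ℤ, ev lio (v + c) ^ 2 = 1 - (if c = -v then (1 : ℝ) else 0) := by
      intro c
      unfold ev
      rw [h1]
      by_cases h : c = -v
      · subst h; simp
      · have h4 : (v + c).natAbs ≠ 0 := by
          rw [Ne, Int.natAbs_eq_zero]; intro h5; exact h (by omega)
        rw [if_neg h4, if_neg h]; ring
    simp_rw [h3]
    rw [sum_sub_distrib, sum_boole]
    simp
  have h3 : #((Icc (-(X : ℤ)) X).filter (fun c => c = -v)) ≤ 1 := by
    rw [card_le_one]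
    intro x hx y hy
    rw [(mem_filter.1 hx).2, (mem_filter.1 hy).2]
  have h4 : (#(Icc (-(X : ℤ)) X) : ℝ) = 2 * X + 1 := by
    rw [Int.card_Icc]
    have : ((X : ℤ) + 1 - -(X : ℤ)).toNat = 2 * X + 1 := by omega
    rw [this]
    push_cast
    ring
  have h5 : (#((Icc (-(X : ℤ)) X).filter (fun c => c = -v)) : ℝ) ≤ 1 := by exact_mod_cast h3
  have h6 : (0 : ℝ) ≤ (#((Icc (-(X : ℤ)) X).filter (fun c => c = -v)) : ℝ) := Nat.cast_nonneg _
  have h7 : 1 ≤ ε * X := by
    have : (X₀ : ℝ) ≤ X := by exact_mod_cast hX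
    have h8 : 1 / ε ≤ X := hX₀.trans this
    rw [div_le_iff₀ hε] at h8
    linarith
  rw [h2, h4, abs_le]
  constructor <;> linarith

end Run7.h285.L
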