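import Pool.Agent.Run7.h285.L.Stm
import Pool.Agent.Run7.h794.MK.Sqf
import Pool.Agent.Run7.h285.G.GEN

/-!
# Project LIO: squarefree numbers in intervals of integers
-/

set_option autoImplicit false

namespace Run7.h285.L

open Finset Filter Topology Polynomial
open Pool.Agent.Run7.h794.MK (mob)
open Pool.Agent.H442R2.EHI (evt_log_pow evt_log_ge)

lemma sum_pos (F : ℕ → ℝ) (a b : ℕ) : ∑ y ∈ Icc (a : ℤ) b, F y.natAbs = ∑ n ∈ Icc a b, F n := by
  symm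
  refine Finset.sum_bij' (fun n _ => (n : ℤ)) (fun y _ => y.natAbs) ?_ ?_ ?_ ?_ ?_
  · intro n hn; rw [mem_Icc] at hn ⊢; omega
  · intro y hy; rw [mem_Icc] at hy ⊢; omega
  · intro n _; simp
  · intro y hy
    rw [mem_Icc] at hy
    show ((y.natAbs : ℕ) : ℤ) = y
    omega
  · intro n _; simp

lemma sum_neg' (F : ℕ → ℝ) (a b : ℤ) : ∑ y ∈ Icc a b, F y.natAbs = ∑ y ∈ Icc (-b) (-a), F y.natAbs := by
  refine Finset.sum_bij' (fun y _ => -y) (fun y _ => -y) ?_ ?_ ?_ ?_ ?_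
  · intro y hy; rw [mem_Icc] at hy ⊢; omega
  · intro y hy; rw [mem_Icc] at hy ⊢; omega
  · intro y _; simp
  · intro y _; simp
  · intro y _; simp

lemma icc_split (F : ℕ → ℝ) (a b c : ℕ) (h : a ≤ b) (h2 : b ≤ c) : ∑ n ∈ Icc (b + 1) c, F n = ∑ n ∈ Icc a c, F n - ∑ n ∈ Icc a b, F n := by
  have h3 : Icc a c = Icc a b ∪ Icc (b + 1) c := by
    ext x; rw [mem_union, mem_Icc, mem_Icc, mem_Icc]; omega
  have h4 : Disjoint (Icc a b) (Icc (b + 1) c) := by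
    rw [disjoint_left]; intro x hx hy; rw [mem_Icc] at hx hy; omega
  rw [h3, sum_union h4]; ring

/-- an interval in the positive integers -/
lemma sq_pos (A B : ℤ) (hA : 1 ≤ A) (hAB : A ≤ B + 1) :
    |∑ y ∈ Icc A B, mob y.natAbs ^ 2 - 6 / Real.pi ^ 2 * (B - A + 1)| ≤ 12 * √(B : ℝ) := by
  obtain ⟨a, ha⟩ : ∃ a : ℕ, A = (a : ℤ) + 1 := ⟨(A - 1).toNat, by omega⟩
  obtain ⟨b, hb⟩ : ∃ b : ℕ, B = (b : ℤ) := ⟨B.toNat, by omega⟩
  subst ha hb
  have hab : a ≤ b := by omega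
  have h1 := sum_pos (fun n => mob n ^ 2) (a + 1) b
  rw [Nat.cast_add, Nat.cast_one] at h1
  rw [h1]
  have h2 : ∑ n ∈ Icc (a + 1) b, mob n ^ 2 = ∑ n ∈ Icc 1 b, mob n ^ 2 - ∑ n ∈ Icc 1 a, mob n ^ 2 := by
    rcases Nat.eq_zero_or_pos a with h0 | h0
    · subst h0; simp
    · exact icc_split _ 1 a b h0 hab
  rw [h2]
  have h3 := Pool.Agent.Run7.h794.MK.sqf_count a
  have h4 := Pool.Agent.Run7.h794.MK.sqf_count b
  have h5 : √(a : ℝ) ≤ √(b : ℝ) := Real.sqrt_le_sqrt (by exact_mod_cast hab)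
  have e : ∑ n ∈ Icc 1 b, mob n ^ 2 - ∑ n ∈ Icc 1 a, mob n ^ 2 - 6 / Real.pi ^ 2 * (((b : ℤ) : ℝ) - ((((a : ℤ) + 1 : ℤ)) : ℝ) + 1) =
      (∑ n ∈ Icc 1 b, mob n ^ 2 - 6 / Real.pi ^ 2 * b) - (∑ n ∈ Icc 1 a, mob n ^ 2 - 6 / Real.pi ^ 2 * a) := by
    push_cast
    ring
  rw [e]
  refine (abs_sub _ _).trans ?_
  rw [Int.cast_natCast]
  linarith

lemma pi_le_one : 6 / Real.pi ^ 2 ≤ 1 := by
  have h := Real.pi_gt_three
  rw [div_le_one (by positivity)]
  nlinarith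

lemma mob_zero : mob 0 = 0 := by
  unfold mob
  simp

/-- every interval -/
lemma sq_all (A B : ℤ) (N : ℝ) (hAB : A ≤ B) (_hN : 0 ≤ N) (hA : |(A : ℝ)| ≤ N) (hB : |(B : ℝ)| ≤ N) :
    |∑ y ∈ Icc A B, mob y.natAbs ^ 2 - 6 / Real.pi ^ 2 * (B - A + 1)| ≤ 24 * √N + 1 := by
  have hs : 0 ≤ √N := Real.sqrt_nonneg _
  have hc := pi_le_one
  have hc0 : 0 ≤ 6 / Real.pi ^ 2 := by positivity
  have a1 := abs_le.1 hA
  have a2 := abs_le.1 hB
  rcases le_or_gt 1 A with h1 | h1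
  · refine (sq_pos A B h1 (by omega)).trans ?_
    have h2 : √(B : ℝ) ≤ √N := Real.sqrt_le_sqrt a2.2
    linarith
  rcases le_or_gt B (-1) with h2 | h2
  · have h3 := sq_pos (-B) (-A) (by omega) (by omega)
    rw [← sum_neg' (fun n => mob n ^ 2) A B] at h3
    have h4 : √((-A : ℤ) : ℝ) ≤ √N := by
      apply Real.sqrt_le_sqrt
      push_cast
      linarith
    have e : 6 / Real.pi ^ 2 * (((-A : ℤ) : ℝ) - ((-B : ℤ) : ℝ) + 1) = 6 / Real.pi ^ 2 * (B - A + 1) := by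
      push_cast; ring
    rw [e] at h3
    linarith
  · have h3 := sq_pos 1 B le_rfl (by omega)
    have h4 := sq_pos 1 (-A) le_rfl (by omega)
    have h5 : ∑ y ∈ Icc A B, mob y.natAbs ^ 2 = ∑ y ∈ Icc 1 B, mob y.natAbs ^ 2 + ∑ y ∈ Icc 1 (-A), mob y.natAbs ^ 2 := by
      have e1 : Icc A B = Icc 1 B ∪ (Icc A (-1) ∪ {0}) := by
        ext x; rw [mem_union, mem_union, mem_singleton, mem_Icc, mem_Icc, mem_Icc]; omega
      have d1 : Disjoint (Icc 1 B) (Icc A (-1) ∪ {0}) := by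
        rw [disjoint_left]; intro x hx hy
        rw [mem_union, mem_singleton, mem_Icc] at hy
        rw [mem_Icc] at hx
        omega
      have d2 : Disjoint (Icc A (-1)) ({0} : Finset ℤ) := by
        rw [disjoint_left]; intro x hx hy
        rw [mem_singleton] at hy
        rw [mem_Icc] at hx
        omega
      rw [e1, sum_union d1, sum_union d2, sum_singleton]
      have e2 := sum_neg' (fun n => mob n ^ 2) A (-1)
      rw [neg_neg] at e2
      rw [e2]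
      simp [mob_zero]
    rw [h5]
    have h6 : √(B : ℝ) ≤ √N := Real.sqrt_le_sqrt a2.2
    have h7 : √((-A : ℤ) : ℝ) ≤ √N := by
      apply Real.sqrt_le_sqrt
      push_cast
      linarith
    push_cast at h3 h4
    have b1 := abs_le.1 h3
    have b2 := abs_le.1 h4
    have h8 : √(-(A : ℝ)) ≤ √N := by
      push_cast at h7; exact h7
    obtain ⟨c, hcd⟩ : ∃ c, c = 6 / Real.pi ^ 2 := ⟨_, rfl⟩
    rw [← hcd] at b1 b2 hc hc0 ⊢
    rw [abs_le]
    constructor <;> nlinarith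

/-- **SQF** -/
theorem sqf : S_SQF := by
  intro ε C hε
  have hev : ∀ᶠ X : ℕ in atTop, (10000 + 100 / ε + 2 / ε : ℝ) ≤ Real.log X ∧
      Real.log X ^ (C + 3) ≤ (X : ℝ) ^ (1 : ℝ) := by
    filter_upwards [evt_log_ge _, evt_log_pow (C + 3) 1 (by norm_num)] with X a1 a2
    exact ⟨a1, a2⟩
  obtain ⟨X₀, hX₀⟩ := eventually_atTop.1 hev
  refine ⟨X₀, fun X hX v hv => ?_⟩
  obtain ⟨hl, hlX⟩ := hX₀ X hX
  have p1 : 0 < 100 / ε := by positivity
  have p2 : 0 < 2 / ε := by positivity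
  have g0 : 10000 ≤ Real.log X := by linarith
  have g1 : 100 / ε ≤ Real.log X := by linarith
  rw [Real.rpow_one] at hlX
  have hl1 : 1 ≤ Real.log X := by linarith
  have hXp : 1 ≤ X := by
    rcases Nat.eq_zero_or_pos X with h | h
    · rw [h] at hl1; norm_num at hl1
    · exact h
  have hX1 : (1 : ℝ) ≤ X := by exact_mod_cast hXp
  have hX0 : (0 : ℝ) < X := by linarith
  generalize Real.log (X : ℝ) = l at *
  have hl0 : 0 < l := by linarith
  have e1 : ∑ c ∈ Icc (-(X : ℤ)) X, ev mob (v + c) ^ 2 = ∑ y ∈ Icc (v - X) (v + X), mob y.natAbs ^ 2 := by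
    refine Finset.sum_bij' (fun c _ => v + c) (fun y _ => y - v) ?_ ?_ ?_ ?_ ?_
    · intro c hc; rw [mem_Icc] at hc ⊢; omega
    · intro c hc; rw [mem_Icc] at hc ⊢; omega
    · intro c _; simp
    · intro c _; simp
    · intro c _; rfl
  rw [e1]
  have hva : |(v : ℝ)| ≤ X * l ^ C := by
    rwa [Nat.cast_natAbs, Int.cast_abs] at hv
  have hlC : 1 ≤ l ^ C := one_le_pow₀ hl1
  have hXC : (X : ℝ) ≤ X * l ^ C := le_mul_of_one_le_right hX0.le hlC
  have v1 := abs_le.1 hva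
  have h1 := sq_all (v - X) (v + X) (2 * (X * l ^ C)) (by omega) (by positivity)
    (by push_cast; rw [abs_le]; constructor <;> linarith) (by push_cast; rw [abs_le]; constructor <;> linarith)
  have h2 : √(2 * ((X : ℝ) * l ^ C)) ≤ X / l := by
    apply Real.sqrt_le_iff.2
    refine ⟨by positivity, ?_⟩
    rw [div_pow, le_div_iff₀ (by positivity)]
    have e : l ^ (C + 3) = l ^ C * l ^ 2 * l := by ring
    rw [e] at hlX
    have h3 : 2 * (l ^ C * l ^ 2) ≤ l ^ C * l ^ 2 * l := by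
      have : 0 < l ^ C * l ^ 2 := by positivity
      nlinarith
    calc 2 * ((X : ℝ) * l ^ C) * l ^ 2 = (X : ℝ) * (2 * (l ^ C * l ^ 2)) := by ring
      _ ≤ (X : ℝ) * (X : ℝ) := mul_le_mul_of_nonneg_left (h3.trans hlX) hX0.le
      _ = (X : ℝ) ^ 2 := by ring
  have h3 : (X : ℝ) / l ≤ ε / 100 * X := by
    rw [div_le_iff₀ hl0]
    rw [div_le_iff₀ hε] at g1
    nlinarith
  have h4 : 2 ≤ ε * X / 4 := by
    have h5 : l ≤ X := by
      have : l ≤ l ^ (C + 3) := le_self_pow₀ hl1 (by omega)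
      linarith
    rw [div_le_iff₀ hε] at g1
    nlinarith
  have hc := pi_le_one
  have hc0 : 0 ≤ 6 / Real.pi ^ 2 := by positivity
  have e2 : ∑ y ∈ Icc (v - X) (v + X), mob y.natAbs ^ 2 - 12 / Real.pi ^ 2 * X =
      (∑ y ∈ Icc (v - X) (v + X), mob y.natAbs ^ 2 - 6 / Real.pi ^ 2 * (((v + X : ℤ) : ℝ) - ((v - X : ℤ) : ℝ) + 1)) +
        6 / Real.pi ^ 2 := by
    push_cast
    ring
  rw [e2]
  refine (abs_add_le _ _).trans ?_
  rw [abs_of_nonneg hc0]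
  have h5 : (24 : ℝ) * √(2 * ((X : ℝ) * l ^ C)) ≤ ε / 4 * X := by
    have := h2.trans h3
    nlinarith
  have : 0 < ε * X := by positivity
  linarith

end Run7.h285.L
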