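import Pool.Agent.Run7.h285.L.All
import Pool.Agent.Run7.h285.L.Sqf

/-!
# Project LIO: the variance
-/

set_option autoImplicit false

namespace Run7.h285.L

open Finset Filter Topology Polynomial
open Pool.Agent.Run7.h794.MK (mob lio mob_abs lio_abs)
open Run7.h285.G (Gd)
open Run7.h285.S (Bx)

theorem dg_mob : S_DG mob (12 / Real.pi ^ 2) := fun ε C hε => sqf ε C hε

theorem var_mob {k : ℕ} (f : Fin (k + 1) → ℤ[X]) (hf : Gd (f 0)) (ε : ℝ) (U C D : ℕ) (hε : 0 < ε) :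
    ∃ B X₀ : ℕ, ∀ X : ℕ, X₀ ≤ X → ∀ m₀ M H : ℕ, 1 ≤ H → (H : ℝ) ≤ Real.log X ^ D →
    (X : ℝ) ^ (1 / 3 : ℝ) * Real.log X ^ B ≤ (M : ℝ) ^ ((f 0).natDegree - 1) →
    (∀ l, ((m₀ : ℝ) + M) ^ (f l).natDegree ≤ X * Real.log X ^ C) → ∀ ω : ℕ → ℝ, (∀ n, |ω n| ≤ 1) →
    |∑ a ∈ Bx (k + 1) X, ∑ m ∈ Ioc m₀ (m₀ + M), (∑ n ∈ Ioc m (m + H), ω n * pe mob f a n) ^ 2 -
      (12 / Real.pi ^ 2 * X) ^ (k + 1) * ∑ m ∈ Ioc m₀ (m₀ + M), ∑ n ∈ Ioc m (m + H), ω n ^ 2| ≤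
      (2 * X : ℝ) ^ (k + 1) * (ε * (∑ m ∈ Ioc m₀ (m₀ + M), ∑ n ∈ Ioc m (m + H), ω n ^ 2) + M * (H : ℝ) ^ 2 / Real.log X ^ U) :=
  lvar_as mob mob_abs (12 / Real.pi ^ 2) (by positivity) (by
    have := pi_le_one
    have e : 12 / Real.pi ^ 2 = 2 * (6 / Real.pi ^ 2) := by ring
    rw [e]; linarith) dg_mob f (lvar_mob hf) ε U C D hε

theorem var_lio {k : ℕ} (f : Fin (k + 1) → ℤ[X]) (hf : Gd (f 0)) (ε : ℝ) (U C D : ℕ) (hε : 0 < ε) :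
    ∃ B X₀ : ℕ, ∀ X : ℕ, X₀ ≤ X → ∀ m₀ M H : ℕ, 1 ≤ H → (H : ℝ) ≤ Real.log X ^ D →
    (X : ℝ) ^ (1 / 3 : ℝ) * Real.log X ^ B ≤ (M : ℝ) ^ ((f 0).natDegree - 1) →
    (∀ l, ((m₀ : ℝ) + M) ^ (f l).natDegree ≤ X * Real.log X ^ C) → ∀ ω : ℕ → ℝ, (∀ n, |ω n| ≤ 1) →
    |∑ a ∈ Bx (k + 1) X, ∑ m ∈ Ioc m₀ (m₀ + M), (∑ n ∈ Ioc m (m + H), ω n * pe lio f a n) ^ 2 -
      (2 * X : ℝ) ^ (k + 1) * ∑ m ∈ Ioc m₀ (m₀ + M), ∑ n ∈ Ioc m (m + H), ω n ^ 2| ≤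
      (2 * X : ℝ) ^ (k + 1) * (ε * (∑ m ∈ Ioc m₀ (m₀ + M), ∑ n ∈ Ioc m (m + H), ω n ^ 2) + M * (H : ℝ) ^ 2 / Real.log X ^ U) :=
  lvar_as lio lio_abs 2 (by norm_num) le_rfl dg_lio f (lvar_lio hf) ε U C D hε

end Run7.h285.L
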