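import Pool.Agent.Run7.h285.L.Stm
import Pool.Agent.Run7.h285.G.GEN

/-!
# Project LIO: products over several polynomials
-/

set_option autoImplicit false

namespace Run7.h285.L

open Finset Filter Topology Polynomial
open Run7.h285.G (Gd val_all)
open Run7.h285.S (Bx prod_close pow_small card_Bx)
open Pool.Agent.H442R2.EHI (evt_log_pow evt_log_ge)

/-- sums over the box, the first variable separated -/
lemma sum_Bx_succ (k X : ℕ) (F : (Fin (k + 1) → ℤ) → ℝ) :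
    ∑ a ∈ Bx (k + 1) X, F a = ∑ b ∈ Bx k X, ∑ c ∈ Icc (-(X : ℤ)) X, F (Fin.cons c b) := by
  rw [← Finset.sum_product']
  symm
  refine Finset.sum_bij' (fun p _ => Fin.cons p.2 p.1) (fun a _ => (Fin.tail a, a 0)) ?_ ?_ ?_ ?_ ?_
  · intro p hp
    rw [mem_product] at hp
    unfold Bx at hp ⊢
    rw [Fintype.mem_piFinset] at hp ⊢
    intro i
    refine Fin.cases ?_ (fun j => ?_) i
    · simpa using hp.2
    · simpa using hp.1 j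
  · intro a ha
    unfold Bx at ha ⊢
    rw [Fintype.mem_piFinset] at ha
    rw [mem_product, Fintype.mem_piFinset]
    exact ⟨fun i => ha i.succ, ha 0⟩
  · intro p _
    simp
  · intro a _
    exact Fin.cons_self_tail a
  · intro p _
    rfl

/-- the product of the values -/
def pe {k : ℕ} (h : ℕ → ℝ) (f : Fin k → ℤ[X]) (a : Fin k → ℤ) (n : ℕ) : ℝ := ∏ l, ev h ((f l).eval (n : ℤ) + a l)

lemma pe_cons {k : ℕ} (h : ℕ → ℝ) (f : Fin (k + 1) → ℤ[X]) (c : ℤ) (b : Fin k → ℤ) (n : ℕ) :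
    pe h f (Fin.cons c b) n = pe h (fun l => f l.succ) b n * ev h ((f 0).eval (n : ℤ) + c) := by
  unfold pe
  rw [Fin.prod_univ_succ, mul_comm]
  simp

lemma pe_abs {k : ℕ} (h : ℕ → ℝ) (hh : ∀ n, |h n| ≤ 1) (f : Fin k → ℤ[X]) (a : Fin k → ℤ) (n : ℕ) : |pe h f a n| ≤ 1 := by
  unfold pe
  rw [abs_prod]
  exact prod_le_one (fun _ _ => abs_nonneg _) fun l _ => hh _

/-- the second moment, `k + 1` polynomials -/
theorem lvar_k (h : ℕ → ℝ) (hh : ∀ n, |h n| ≤ 1) {k : ℕ} (f : Fin (k + 1) → ℤ[X]) (h1 : S_LVar h (f 0)) :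
    ∀ U C D : ℕ, ∃ B X₀ : ℕ, ∀ X : ℕ, X₀ ≤ X → ∀ m₀ M H : ℕ, 1 ≤ H → (H : ℝ) ≤ Real.log X ^ D →
    (X : ℝ) ^ (1 / 3 : ℝ) * Real.log X ^ B ≤ (M : ℝ) ^ ((f 0).natDegree - 1) →
    ((m₀ : ℝ) + M) ^ (f 0).natDegree ≤ X * Real.log X ^ C → ∀ ω : ℕ → ℝ, (∀ n, |ω n| ≤ 1) →
    |∑ a ∈ Bx (k + 1) X, ∑ m ∈ Ioc m₀ (m₀ + M), (∑ n ∈ Ioc m (m + H), ω n * pe h f a n) ^ 2 -
      ∑ m ∈ Ioc m₀ (m₀ + M), ∑ n ∈ Ioc m (m + H), ω n ^ 2 * ∏ l, ∑ c ∈ Icc (-(X : ℤ)) X, ev h ((f l).eval (n : ℤ) + c) ^ 2| ≤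
      (2 * (X : ℝ) + 1) ^ k * (X * M * ((H : ℝ) ^ 2 / Real.log X ^ U)) := by
  intro U C D
  obtain ⟨B, X₀, h2⟩ := h1 U C D
  refine ⟨B, X₀, fun X hX m₀ M H hH hHD hM hW ω hω => ?_⟩
  have h3 := fun b : Fin k → ℤ => h2 X hX m₀ M H hH hHD hM hW (fun n => ω n * pe h (fun l => f l.succ) b n) (by
    intro n
    rw [abs_mul]
    have a1 := hω n
    have a2 := pe_abs h hh (fun l => f l.succ) b n
    have a3 := abs_nonneg (ω n)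
    have a4 := abs_nonneg (pe h (fun l => f l.succ) b n)
    nlinarith)
  have e1 : ∑ m ∈ Ioc m₀ (m₀ + M), ∑ n ∈ Ioc m (m + H), ω n ^ 2 *
      ∏ l, ∑ c ∈ Icc (-(X : ℤ)) X, ev h ((f l).eval (n : ℤ) + c) ^ 2 =
      ∑ b ∈ Bx k X, ∑ m ∈ Ioc m₀ (m₀ + M), ∑ n ∈ Ioc m (m + H), (ω n * pe h (fun l => f l.succ) b n) ^ 2 *
        ∑ c ∈ Icc (-(X : ℤ)) X, ev h ((f 0).eval (n : ℤ) + c) ^ 2 := by
    rw [sum_comm]
    refine sum_congr rfl fun m _ => ?_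
    rw [sum_comm]
    refine sum_congr rfl fun n _ => ?_
    rw [Fin.prod_univ_succ]
    have e2 : ∏ l : Fin k, ∑ c ∈ Icc (-(X : ℤ)) X, ev h ((f l.succ).eval (n : ℤ) + c) ^ 2 =
        ∑ b ∈ Bx k X, pe h (fun l => f l.succ) b n ^ 2 := by
      rw [Finset.prod_univ_sum]
      refine sum_congr rfl fun b _ => ?_
      unfold pe
      rw [← prod_pow]
    rw [e2, mul_sum, mul_sum]
    refine sum_congr rfl fun b _ => ?_
    ring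
  have e3 : ∑ a ∈ Bx (k + 1) X, ∑ m ∈ Ioc m₀ (m₀ + M), (∑ n ∈ Ioc m (m + H), ω n * pe h f a n) ^ 2 =
      ∑ b ∈ Bx k X, ∑ a ∈ Icc (-(X : ℤ)) X, ∑ m ∈ Ioc m₀ (m₀ + M),
        (∑ n ∈ Ioc m (m + H), (ω n * pe h (fun l => f l.succ) b n) * ev h ((f 0).eval (n : ℤ) + a)) ^ 2 := by
    rw [sum_Bx_succ]
    refine sum_congr rfl fun b _ => sum_congr rfl fun c _ => sum_congr rfl fun m _ => ?_
    congr 1
    refine sum_congr rfl fun n _ => ?_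
    rw [pe_cons]
    ring
  rw [e1, e3, ← sum_sub_distrib]
  refine (abs_sum_le_sum_abs _ _).trans ?_
  refine (sum_le_sum fun b _ => h3 b).trans (le_of_eq ?_)
  rw [sum_const, nsmul_eq_mul, card_Bx]

/-- the diagonal -/
def S_DG (h : ℕ → ℝ) (d : ℝ) : Prop := ∀ (ε : ℝ) (C : ℕ), 0 < ε → ∃ X₀ : ℕ, ∀ X : ℕ, X₀ ≤ X → ∀ v : ℤ,
  (v.natAbs : ℝ) ≤ X * Real.log X ^ C → |∑ c ∈ Icc (-(X : ℤ)) X, ev h (v + c) ^ 2 - d * X| ≤ ε * X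

/-- the asymptotic second moment, `k + 1` polynomials -/
theorem lvar_as (h : ℕ → ℝ) (hh : ∀ n, |h n| ≤ 1) (d : ℝ) (hd : 0 < d) (hd2 : d ≤ 2) (hdg : S_DG h d) {k : ℕ}
    (f : Fin (k + 1) → ℤ[X]) (h1 : S_LVar h (f 0)) :
    ∀ (ε : ℝ) (U C D : ℕ), 0 < ε → ∃ B X₀ : ℕ, ∀ X : ℕ, X₀ ≤ X → ∀ m₀ M H : ℕ, 1 ≤ H → (H : ℝ) ≤ Real.log X ^ D →
    (X : ℝ) ^ (1 / 3 : ℝ) * Real.log X ^ B ≤ (M : ℝ) ^ ((f 0).natDegree - 1) →
    (∀ l, ((m₀ : ℝ) + M) ^ (f l).natDegree ≤ X * Real.log X ^ C) → ∀ ω : ℕ → ℝ, (∀ n, |ω n| ≤ 1) →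
    |∑ a ∈ Bx (k + 1) X, ∑ m ∈ Ioc m₀ (m₀ + M), (∑ n ∈ Ioc m (m + H), ω n * pe h f a n) ^ 2 -
      (d * X) ^ (k + 1) * ∑ m ∈ Ioc m₀ (m₀ + M), ∑ n ∈ Ioc m (m + H), ω n ^ 2| ≤
      (2 * X : ℝ) ^ (k + 1) * (ε * (∑ m ∈ Ioc m₀ (m₀ + M), ∑ n ∈ Ioc m (m + H), ω n ^ 2) + M * (H : ℝ) ^ 2 / Real.log X ^ U) := by
  intro ε U C D hε
  obtain ⟨ε₂, he20, he21⟩ := pow_small (k + 1) ε hε
  obtain ⟨K2, hK20, hK22, hKv⟩ := val_all f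
  obtain ⟨B, Xa, h2⟩ := lvar_k h hh f h1 (U + 1) C D
  obtain ⟨Xb, h3⟩ := hdg (ε₂ * d) (C + 2) (by positivity)
  have hev : ∀ᶠ X : ℕ in atTop, (10000 + K2 + 2 ^ k : ℝ) ≤ Real.log X ∧
      Real.log X ^ (D * ∑ i, (f i).natDegree) ≤ (X : ℝ) ^ (1 : ℝ) := by
    filter_upwards [evt_log_ge _, evt_log_pow (D * ∑ i, (f i).natDegree) 1 (by norm_num)] with X a1 a2
    exact ⟨a1, a2⟩
  obtain ⟨Xe, hXe⟩ := eventually_atTop.1 hev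
  refine ⟨B, Xa + Xb + Xe, fun X hX m₀ M H hH hHD hM hW ω hω => ?_⟩
  have h2 := h2 X (by omega) m₀ M H hH hHD hM (hW 0) ω hω
  have h3 := h3 X (by omega)
  obtain ⟨hl, hlX⟩ := hXe X (by omega)
  have p1 : (0 : ℝ) < 2 ^ k := by positivity
  have g0 : 10000 ≤ Real.log X := by linarith
  have g1 : K2 ≤ Real.log X := by linarith
  have g2 : (2 : ℝ) ^ k ≤ Real.log X := by linarith
  clear hl hXe hev
  have hl1 : 1 ≤ Real.log X := by linarith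
  have hXp : 1 ≤ X := by
    rcases Nat.eq_zero_or_pos X with h | h
    · rw [h] at hl1; norm_num at hl1
    · exact h
  have hX1 : (1 : ℝ) ≤ X := by exact_mod_cast hXp
  have hX0 : (0 : ℝ) < X := by linarith
  rw [Real.rpow_one] at hlX
  generalize hll : Real.log (X : ℝ) = l at *
  have hl0 : 0 < l := by linarith
  have hH0 : (0 : ℝ) ≤ H := Nat.cast_nonneg _
  have hM0 : (0 : ℝ) ≤ M := Nat.cast_nonneg _
  have hG : ∀ i, (H : ℝ) ^ (f i).natDegree ≤ X * l ^ (C + 1) := by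
    intro i
    calc (H : ℝ) ^ (f i).natDegree ≤ (l ^ D) ^ (f i).natDegree := pow_le_pow_left₀ hH0 hHD _
      _ = l ^ (D * (f i).natDegree) := by rw [← pow_mul]
      _ ≤ l ^ (D * ∑ i, (f i).natDegree) := by
          apply pow_le_pow_right₀ hl1
          apply Nat.mul_le_mul_left
          exact single_le_sum (f := fun j => (f j).natDegree) (fun j _ => Nat.zero_le _) (mem_univ i)
      _ ≤ X := hlX
      _ ≤ X * l ^ (C + 1) := le_mul_of_one_le_right hX0.le (one_le_pow₀ hl1)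
  have h0 : (fun _ => 0 : Fin (k + 1) → ℤ) ∈ Bx (k + 1) X := by
    unfold Bx
    rw [Fintype.mem_piFinset]
    intro i
    rw [mem_Icc]
    constructor <;> omega
  have h4 : |∑ m ∈ Ioc m₀ (m₀ + M), ∑ n ∈ Ioc m (m + H), ω n ^ 2 *
      ∏ l, ∑ c ∈ Icc (-(X : ℤ)) X, ev h ((f l).eval (n : ℤ) + c) ^ 2 -
      (d * X) ^ (k + 1) * ∑ m ∈ Ioc m₀ (m₀ + M), ∑ n ∈ Ioc m (m + H), ω n ^ 2| ≤
      ε * (d * X) ^ (k + 1) * ∑ m ∈ Ioc m₀ (m₀ + M), ∑ n ∈ Ioc m (m + H), ω n ^ 2 := by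
    rw [mul_sum, mul_sum, ← sum_sub_distrib]
    refine (abs_sum_le_sum_abs _ _).trans (sum_le_sum fun m hm => ?_)
    rw [mul_sum, mul_sum, ← sum_sub_distrib]
    refine (abs_sum_le_sum_abs _ _).trans (sum_le_sum fun n hn => ?_)
    have h5 := prod_close (univ : Finset (Fin (k + 1)))
      (fun l => ∑ c ∈ Icc (-(X : ℤ)) X, ev h ((f l).eval (n : ℤ) + c) ^ 2) (d * X) ε₂ (by positivity) he20.le (by
        intro i _
        have h6 := hKv X m₀ M C m H n l (fun _ => 0) g1 hl1 hX1 h0 hm hW hG hn i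
        rw [add_zero] at h6
        have h7 := h3 ((f i).eval (n : ℤ)) h6
        rw [← mul_assoc]
        exact h7)
    rw [card_univ, Fintype.card_fin] at h5
    have e : ω n ^ 2 * ∏ l, ∑ c ∈ Icc (-(X : ℤ)) X, ev h ((f l).eval (n : ℤ) + c) ^ 2 - (d * X) ^ (k + 1) * ω n ^ 2 =
        ω n ^ 2 * (∏ l, ∑ c ∈ Icc (-(X : ℤ)) X, ev h ((f l).eval (n : ℤ) + c) ^ 2 - (d * X) ^ (k + 1)) := by ring
    rw [e, abs_mul, abs_of_nonneg (sq_nonneg _)]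
    calc ω n ^ 2 * |∏ l, ∑ c ∈ Icc (-(X : ℤ)) X, ev h ((f l).eval (n : ℤ) + c) ^ 2 - (d * X) ^ (k + 1)| ≤
          ω n ^ 2 * (ε * (d * X) ^ (k + 1)) := by
          apply mul_le_mul_of_nonneg_left _ (sq_nonneg _)
          exact h5.trans (mul_le_mul_of_nonneg_right he21 (by positivity))
      _ = ε * (d * X) ^ (k + 1) * ω n ^ 2 := by ring
  have h5 : 0 ≤ ∑ m ∈ Ioc m₀ (m₀ + M), ∑ n ∈ Ioc m (m + H), ω n ^ 2 := sum_nonneg fun _ _ => sum_nonneg fun _ _ => sq_nonneg _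
  have h6 : ε * (d * X) ^ (k + 1) * ∑ m ∈ Ioc m₀ (m₀ + M), ∑ n ∈ Ioc m (m + H), ω n ^ 2 ≤
      (2 * X : ℝ) ^ (k + 1) * (ε * ∑ m ∈ Ioc m₀ (m₀ + M), ∑ n ∈ Ioc m (m + H), ω n ^ 2) := by
    have a1 : (d * X) ^ (k + 1) ≤ (2 * X : ℝ) ^ (k + 1) :=
      pow_le_pow_left₀ (by positivity) (mul_le_mul_of_nonneg_right hd2 hX0.le) _
    calc ε * (d * X) ^ (k + 1) * ∑ m ∈ Ioc m₀ (m₀ + M), ∑ n ∈ Ioc m (m + H), ω n ^ 2 =
          (d * X) ^ (k + 1) * (ε * ∑ m ∈ Ioc m₀ (m₀ + M), ∑ n ∈ Ioc m (m + H), ω n ^ 2) := by ring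
      _ ≤ _ := mul_le_mul_of_nonneg_right a1 (by positivity)
  have h7 : (2 * (X : ℝ) + 1) ^ k * (X * M * ((H : ℝ) ^ 2 / l ^ (U + 1))) ≤ (2 * X : ℝ) ^ (k + 1) * (M * (H : ℝ) ^ 2 / l ^ U) := by
    have a1 : (2 * (X : ℝ) + 1) ^ k ≤ 2 ^ k * (2 * X) ^ k := by
      rw [← mul_pow]
      exact pow_le_pow_left₀ (by positivity) (by linarith) _
    have a2 : (2 * (X : ℝ) + 1) ^ k * X ≤ l * (2 * X) ^ (k + 1) := by
      calc (2 * (X : ℝ) + 1) ^ k * X ≤ 2 ^ k * (2 * X) ^ k * (2 * X) := by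
            apply mul_le_mul a1 (by linarith) hX0.le (by positivity)
        _ = 2 ^ k * (2 * X) ^ (k + 1) := by ring
        _ ≤ l * (2 * X) ^ (k + 1) := mul_le_mul_of_nonneg_right g2 (by positivity)
    have e : (2 * (X : ℝ) + 1) ^ k * (X * M * ((H : ℝ) ^ 2 / l ^ (U + 1))) =
        ((2 * (X : ℝ) + 1) ^ k * X) * (M * (H : ℝ) ^ 2 / l ^ (U + 1)) := by ring
    rw [e]
    calc ((2 * (X : ℝ) + 1) ^ k * X) * (M * (H : ℝ) ^ 2 / l ^ (U + 1)) ≤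
          (l * (2 * X) ^ (k + 1)) * (M * (H : ℝ) ^ 2 / l ^ (U + 1)) := mul_le_mul_of_nonneg_right a2 (by positivity)
      _ = _ := by
          rw [pow_succ l U]
          field_simp
  have e : (2 * X : ℝ) ^ (k + 1) * (ε * (∑ m ∈ Ioc m₀ (m₀ + M), ∑ n ∈ Ioc m (m + H), ω n ^ 2) + M * (H : ℝ) ^ 2 / l ^ U) =
      (2 * X : ℝ) ^ (k + 1) * (ε * ∑ m ∈ Ioc m₀ (m₀ + M), ∑ n ∈ Ioc m (m + H), ω n ^ 2) +
        (2 * X : ℝ) ^ (k + 1) * (M * (H : ℝ) ^ 2 / l ^ U) := by ring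
  rw [e]
  have h8 := abs_sub_le (∑ a ∈ Bx (k + 1) X, ∑ m ∈ Ioc m₀ (m₀ + M), (∑ n ∈ Ioc m (m + H), ω n * pe h f a n) ^ 2)
    (∑ m ∈ Ioc m₀ (m₀ + M), ∑ n ∈ Ioc m (m + H), ω n ^ 2 *
      ∏ l, ∑ c ∈ Icc (-(X : ℤ)) X, ev h ((f l).eval (n : ℤ) + c) ^ 2)
    ((d * X) ^ (k + 1) * ∑ m ∈ Ioc m₀ (m₀ + M), ∑ n ∈ Ioc m (m + H), ω n ^ 2)
  linarith

open Classical in
/-- all windows at once, `k + 1` polynomials -/
theorem lm_k (h : ℕ → ℝ) (hh : ∀ n, |h n| ≤ 1) {k : ℕ} (f : Fin (k + 1) → ℤ[X]) (h1 : S_LM h (f 0)) :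
    ∀ ε : ℝ, 0 < ε → ∃ K : ℝ, 0 < K ∧ ∀ C D : ℕ, ∃ B X₀ : ℕ, ∀ X : ℕ, X₀ ≤ X → ∀ m₀ M : ℕ,
    (X : ℝ) ^ (1 / 3 : ℝ) * Real.log X ^ B ≤ (M : ℝ) ^ ((f 0).natDegree - 1) →
    ((m₀ : ℝ) + M) ^ (f 0).natDegree ≤ X * Real.log X ^ C → ∀ ω : ℕ → ℝ, (∀ n, |ω n| ≤ 1) →
    ∃ Bad ⊆ Bx (k + 1) X ×ˢ Ioc m₀ (m₀ + M), (#Bad : ℝ) ≤ ε * ((X : ℝ) ^ (k + 1) * M) ∧
      ∀ a ∈ Bx (k + 1) X, ∀ m ∈ Ioc m₀ (m₀ + M), (a, m) ∉ Bad → ∀ H : ℕ, 1 ≤ H →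
        (H : ℝ) ^ (f 0).natDegree ≤ X * Real.log X ^ C →
        |∑ n ∈ Ioc m (m + H), ω n * pe h f a n| ≤ K * √H * (1 + Real.log H) ^ 2 + H / Real.log X ^ D := by
  intro ε hε
  obtain ⟨K, hK, h2⟩ := h1 (ε / 3 ^ k) (by positivity)
  refine ⟨K, hK, fun C D => ?_⟩
  obtain ⟨B, X₀, h3⟩ := h2 C D
  refine ⟨B, X₀ + 1, fun X hX m₀ M hM hW ω hω => ?_⟩
  have h4 : ∀ b : Fin k → ℤ, ∃ Bad ⊆ Icc (-(X : ℤ)) X ×ˢ Ioc m₀ (m₀ + M), (#Bad : ℝ) ≤ ε / 3 ^ k * (X * M) ∧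
      ∀ a ∈ Icc (-(X : ℤ)) X, ∀ m ∈ Ioc m₀ (m₀ + M), (a, m) ∉ Bad → ∀ H : ℕ, 1 ≤ H →
      (H : ℝ) ^ (f 0).natDegree ≤ X * Real.log X ^ C →
      |∑ n ∈ Ioc m (m + H), (ω n * pe h (fun l => f l.succ) b n) * ev h ((f 0).eval (n : ℤ) + a)| ≤
        K * √H * (1 + Real.log H) ^ 2 + H / Real.log X ^ D := fun b =>
    h3 X (by omega) m₀ M hM hW (fun n => ω n * pe h (fun l => f l.succ) b n) (by
      intro n
      rw [abs_mul]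
      have a1 := hω n
      have a2 := pe_abs h hh (fun l => f l.succ) b n
      have a3 := abs_nonneg (ω n)
      have a4 := abs_nonneg (pe h (fun l => f l.succ) b n)
      nlinarith)
  choose Bd hBd1 hBd2 hBd3 using h4
  refine ⟨(Bx (k + 1) X ×ˢ Ioc m₀ (m₀ + M)).filter (fun p => (p.1 0, p.2) ∈ Bd (Fin.tail p.1)), filter_subset _ _, ?_, ?_⟩
  · have h5 : #((Bx (k + 1) X ×ˢ Ioc m₀ (m₀ + M)).filter (fun p => (p.1 0, p.2) ∈ Bd (Fin.tail p.1))) ≤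
        #((Bx k X).sigma Bd) := by
      apply card_le_card_of_injOn (fun p => ⟨Fin.tail p.1, (p.1 0, p.2)⟩)
      · intro p hp
        rw [mem_coe, mem_filter, mem_product] at hp
        rw [mem_coe, mem_sigma]
        refine ⟨?_, hp.2⟩
        have h6 := hp.1.1
        unfold Bx at h6 ⊢
        rw [Fintype.mem_piFinset] at h6 ⊢
        exact fun i => h6 i.succ
      · intro p _ q _ hpq
        simp only [Sigma.mk.injEq, heq_eq_eq, Prod.mk.injEq] at hpq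
        obtain ⟨e1, e2, e3⟩ := hpq
        refine Prod.ext ?_ e3
        rw [← Fin.cons_self_tail p.1, ← Fin.cons_self_tail q.1, e1, e2]
    have h6 : (#((Bx k X).sigma Bd) : ℝ) ≤ (2 * (X : ℝ) + 1) ^ k * (ε / 3 ^ k * (X * M)) := by
      rw [card_sigma]
      push_cast
      refine (sum_le_sum fun b _ => hBd2 b).trans (le_of_eq ?_)
      rw [sum_const, nsmul_eq_mul, card_Bx]
    have hX1 : (1 : ℝ) ≤ X := by
      have : 1 ≤ X := by omega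
      exact_mod_cast this
    have h7 : (2 * (X : ℝ) + 1) ^ k ≤ 3 ^ k * (X : ℝ) ^ k := by
      rw [← mul_pow]
      exact pow_le_pow_left₀ (by positivity) (by linarith) _
    calc (#((Bx (k + 1) X ×ˢ Ioc m₀ (m₀ + M)).filter (fun p => (p.1 0, p.2) ∈ Bd (Fin.tail p.1))) : ℝ) ≤
          (#((Bx k X).sigma Bd) : ℝ) := by exact_mod_cast h5
      _ ≤ (2 * (X : ℝ) + 1) ^ k * (ε / 3 ^ k * (X * M)) := h6
      _ ≤ 3 ^ k * (X : ℝ) ^ k * (ε / 3 ^ k * (X * M)) := mul_le_mul_of_nonneg_right h7 (by positivity)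
      _ = ε * ((X : ℝ) ^ (k + 1) * M) := by
          rw [pow_succ]
          field_simp
  · intro a ha m hm hbad H hH hHC
    have h5 : (a 0, m) ∉ Bd (Fin.tail a) := by
      intro h6
      exact hbad (mem_filter.2 ⟨mem_product.2 ⟨ha, hm⟩, h6⟩)
    have ha0 : a 0 ∈ Icc (-(X : ℤ)) X := by
      unfold Bx at ha
      exact Fintype.mem_piFinset.1 ha 0
    have h6 := hBd3 (Fin.tail a) (a 0) ha0 m hm h5 H hH hHC
    refine le_trans (le_of_eq ?_) h6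
    congr 1
    refine sum_congr rfl fun n _ => ?_
    have e := pe_cons h f (a 0) (Fin.tail a) n
    rw [Fin.cons_self_tail] at e
    rw [e]
    ring

end Run7.h285.L
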